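import Pool.Agent.H70.KS.Trans

/-!
# Random sublists of non-tight list assignments on `K_{n,n}`

Let `ε > 0`, `0 ≤ lam < eta < 1`.  For every `δ > 0` and all large `n` the following holds for all
`l ≥ n` and all list assignments `L'` of the edges of `K_{n,n}` (cells `(i, j)`) with `|L' i j| ≥ l` in
which, for every edge, at most `lam * l` colours of its list lie in more than `(1 - eta) * l` lists
at one of its two ends: if every colour of every list is kept independently with probability
`p = (2 + ε) log n / n` then `K_{n,n}` has a proper edge colouring from the remaining lists with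
probability at least `1 - δ`.  (The probability is written as in the frozen statement.)

Proof: nibble with exact negative cylinder dependence and the local lemma (a list edge colouring
theorem for lists of size `l` and colour degrees at most `ρ l`, `ρ < 1`, `l ≥ l₀(ρ)`), applied after
a cleaning step to the random lists, whose size is only about `(2 + ε) log n`.
-/

set_option autoImplicit false
open Classical

namespace Pool.Agent.Results.MP_08b5bc_co.NonTightLists

theorem result (ε : ℝ) (hε : 0 < ε) (lam eta : ℝ) (hlam : 0 ≤ lam) (hle : lam < eta)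
    (heta : eta < 1) (δ : ℝ) (hδ : 0 < δ) :
    ∃ N : ℕ, ∀ n : ℕ, N ≤ n → ∀ (l : ℕ) (L' : Fin n → Fin n → Finset ℕ), n ≤ l →
      (∀ i j, l ≤ (L' i j).card) →
      (∀ i j, (((L' i j).filter fun c =>
          (1 - eta) * l < ((Finset.univ.filter fun j' => c ∈ L' i j').card : ℝ) ∨
          (1 - eta) * l < ((Finset.univ.filter fun i' => c ∈ L' i' j).card : ℝ)).card : ℝ) ≤
            lam * l) →
      1 - δ ≤ ∑ S ∈ (Fintype.piFinset fun i : Fin n =>
                Fintype.piFinset fun j : Fin n => (L' i j).powerset).filter
            (fun S => ∃ f : Fin n → Fin n → ℕ,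
              (∀ i j, f i j ∈ S i j) ∧
              (∀ i j j', j ≠ j' → f i j ≠ f i j') ∧
              (∀ i i' j, i ≠ i' → f i j ≠ f i' j)),
          ∏ i : Fin n, ∏ j : Fin n,
            ((2 + ε) * Real.log (n : ℝ) / (n : ℝ)) ^ (S i j).card *
            (1 - (2 + ε) * Real.log (n : ℝ) / (n : ℝ)) ^ ((L' i j).card - (S i j).card) :=
  Pool.Agent.H70.KS.main ε hε lam eta hlam hle heta δ hδ

end Pool.Agent.Results.MP_08b5bc_co.NonTightLists
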